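import Pool.Agent.Helper24.UG.Win
import Pool.Agent.Helper64.UG.Tail

/-!
# UX, MG: every interval of bounded length contains the ordinate of a zero

`f_B(t) = ∑_ρ m_ρ (B - β)/((B - β)² + (t - γ)²) = Re (ξ'/ξ)(B + it)`. `f_2(t) ≥ (log t)/4 - C`, `f_33(t) ≤ log t + C`; if no zero
has `|γ - t| < 33` then `f_2(t) ≤ f_33(t)/8`.
-/

set_option autoImplicit false
open MeasureTheory Set Filter Topology
open Pool.Agent.Helper57.Zeta Pool.Agent.Helper57.LH Pool.Agent.Helper57.ED Pool.Agent.Helper54.LG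
open Pool.Agent.Helper93.UG (zc IsOrd sp)

namespace Pool.Agent.Helper21.UX

private lemma term_re21 (z : ℂ) (n : ℕ) : (1 / ((n:ℂ) + 1) - 1 / ((n:ℂ) + z)).re =
    1 / ((n:ℝ) + 1) - ((n:ℝ) + z.re) / (((n:ℝ) + z.re) ^ 2 + z.im ^ 2) := by
  have e1 : (1 / ((n:ℂ) + 1)).re = 1 / ((n:ℝ) + 1) := by
    have : 1 / ((n:ℂ) + 1) = ((1 / ((n:ℝ) + 1) : ℝ) : ℂ) := by push_cast; rfl
    rw [this, Complex.ofReal_re]
  rw [Complex.sub_re, e1, one_div ((n:ℂ) + z), Complex.inv_re, Complex.normSq_apply]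
  simp only [Complex.add_re, Complex.natCast_re, Complex.add_im, Complex.natCast_im, zero_add]
  ring

/-- lower bound for the digamma function -/
private lemma digamma_ge {z : ℂ} (hz : z.re = 1) (hi : 1 ≤ z.im) :
    1 / 2 * Real.log z.im - 1 ≤ (Complex.digamma z).re := by
  have h1 := Complex.hasSum_re (digamma_hasSum (s := z) (by rw [hz]; norm_num))
  rw [Complex.add_re, Complex.ofReal_re] at h1
  have hγ := Real.eulerMascheroniConstant_lt_two_thirds
  set w := z.im with hw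
  have hw0 : 0 < w := by linarith
  have hterm : ∀ n : ℕ, (1 / ((n:ℂ) + 1) - 1 / ((n:ℂ) + z)).re = w ^ 2 / (((n:ℝ) + 1) * (((n:ℝ) + 1) ^ 2 + w ^ 2)) := by
    intro n
    rw [term_re21, hz, ← hw]
    have : (0:ℝ) ≤ n := Nat.cast_nonneg n
    have h2 : ((n:ℝ) + 1) ≠ 0 := by positivity
    have h3 : ((n:ℝ) + 1) ^ 2 + w ^ 2 ≠ 0 := by positivity
    field_simp
    ring
  set M : ℕ := ⌊w⌋₊ with hM
  have hMw : (M:ℝ) ≤ w := Nat.floor_le hw0.le
  have hMw2 : w < (M:ℝ) + 1 := Nat.lt_floor_add_one w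
  have h2 : ∑ n ∈ Finset.range M, (1 / ((n:ℂ) + 1) - 1 / ((n:ℂ) + z)).re ≤
      (Complex.digamma z).re + Real.eulerMascheroniConstant :=
    sum_le_hasSum _ (fun n _ => by rw [hterm]; positivity) h1
  have h3 : (harmonic M : ℝ) / 2 ≤ ∑ n ∈ Finset.range M, (1 / ((n:ℂ) + 1) - 1 / ((n:ℂ) + z)).re := by
    unfold harmonic
    push_cast
    rw [Finset.sum_div]
    refine Finset.sum_le_sum fun n hn => ?_
    rw [hterm]
    have hn1 : (n:ℝ) + 1 ≤ M := by
      have := Finset.mem_range.1 hn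
      exact_mod_cast this
    have hn0 : (0:ℝ) ≤ n := Nat.cast_nonneg n
    rw [inv_eq_one_div, div_div, div_le_div_iff₀ (by positivity) (by positivity)]
    have h4 : ((n:ℝ) + 1) ^ 2 ≤ w ^ 2 := by
      apply pow_le_pow_left₀ (by positivity)
      linarith
    nlinarith
  have h4 := log_add_one_le_harmonic M
  have h5 : Real.log w ≤ Real.log ((M:ℝ) + 1) := Real.log_le_log hw0 hMw2.le
  push_cast at h4
  linarith

private lemma logDeriv_zeta21 : ∃ C : ℝ, 0 ≤ C ∧ ∀ s : ℂ, 2 ≤ s.re → ‖logDeriv riemannZeta s‖ ≤ C := by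
  set f : ℕ → ℂ := fun n => ((ArithmeticFunction.vonMangoldt n : ℝ) : ℂ) with hf
  have hs2 : Summable fun n => ‖LSeries.term f (2:ℂ) n‖ :=
    (ArithmeticFunction.LSeriesSummable_vonMangoldt (s := 2) (by norm_num)).norm
  refine ⟨∑' n, ‖LSeries.term f (2:ℂ) n‖, tsum_nonneg fun n => norm_nonneg _, ?_⟩
  intro s hs
  have hle : ∀ n, ‖LSeries.term f s n‖ ≤ ‖LSeries.term f (2:ℂ) n‖ := fun n =>
    LSeries.norm_term_le_of_re_le_re f (by simpa using hs) n
  have hss : Summable fun n => ‖LSeries.term f s n‖ :=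
    Summable.of_nonneg_of_le (fun n => norm_nonneg _) hle hs2
  have h1 := ArithmeticFunction.LSeries_vonMangoldt_eq_deriv_riemannZeta_div (s := s) (by linarith)
  have h2 : ‖logDeriv riemannZeta s‖ = ‖∑' n, LSeries.term f s n‖ := by
    rw [logDeriv_apply, ← norm_neg, ← neg_div, ← h1]
    rfl
  rw [h2]
  exact (norm_tsum_le_tsum_norm hss).trans (hss.tsum_le_tsum hle hs2)

/-- `Re ξ'/ξ` is at least `(log t)/4 - C` on the line `Re s = 2`. -/
private lemma xi_ge21 : ∃ C : ℝ, 0 ≤ C ∧ ∀ t : ℝ, 2 ≤ t →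
    1 / 4 * Real.log t - C ≤ (logDeriv xi (((2 : ℝ) : ℂ) + (t : ℂ) * Complex.I)).re := by
  obtain ⟨C, hC, hb⟩ := logDeriv_zeta21
  refine ⟨C + 6, by linarith, ?_⟩
  intro t ht
  set s : ℂ := ((2 : ℝ) : ℂ) + (t : ℂ) * Complex.I with hs
  have hsre : s.re = 2 := by rw [hs]; simp
  have hsim : s.im = t := by rw [hs]; simp
  rw [logDeriv_xi (by rw [hsre]; norm_num)]
  simp only [Complex.add_re]
  have hn : s.re ≤ ‖s‖ := Complex.re_le_norm s
  have h1 : -1 ≤ (1 / s).re := by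
    refine (abs_le.1 ((Complex.abs_re_le_norm _).trans ?_)).1
    rw [norm_div, norm_one, div_le_one (by linarith)]
    linarith
  have h2 : -1 ≤ (1 / (s - 1)).re := by
    refine (abs_le.1 ((Complex.abs_re_le_norm _).trans ?_)).1
    have h3 : (s - 1).re ≤ ‖s - 1‖ := Complex.re_le_norm _
    rw [Complex.sub_re, Complex.one_re] at h3
    rw [norm_div, norm_one, div_le_one (by linarith)]
    linarith
  have h3 : -2 ≤ (-(Real.log Real.pi : ℂ) / 2).re := by
    have : (-(Real.log Real.pi : ℂ) / 2) = ((-(Real.log Real.pi) / 2 : ℝ) : ℂ) := by push_cast; rfl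
    rw [this, Complex.ofReal_re]
    have := Real.log_le_sub_one_of_pos Real.pi_pos
    have := Real.pi_le_four
    linarith
  have hs2 : (s / 2).re = s.re / 2 := by
    rw [show s / 2 = ((1/2 : ℝ) : ℂ) * s by push_cast; ring, Complex.re_ofReal_mul]; ring
  have hs3 : (s / 2).im = s.im / 2 := by
    rw [show s / 2 = ((1/2 : ℝ) : ℂ) * s by push_cast; ring, Complex.im_ofReal_mul]; ring
  have h4 : 1 / 4 * Real.log t - 1 ≤ (Complex.digamma (s / 2) / 2).re := by
    have h5 := digamma_ge (z := s / 2) (by rw [hs2, hsre]; norm_num) (by rw [hs3, hsim]; linarith)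
    have e : (Complex.digamma (s / 2) / 2).re = (Complex.digamma (s / 2)).re / 2 := by
      rw [show Complex.digamma (s / 2) / 2 = ((1/2 : ℝ) : ℂ) * Complex.digamma (s / 2) by push_cast; ring,
        Complex.re_ofReal_mul]; ring
    rw [hs3, hsim, Real.log_div (by linarith) (by norm_num)] at h5
    have h6 := Real.log_two_lt_d9
    rw [e]
    linarith
  have h5 := (abs_le.1 ((Complex.abs_re_le_norm _).trans (hb s hsre.ge))).1
  linarith

private lemma term_le21 {β x : ℝ} (h0 : 0 < β) (h1 : β < 1) (hx : 33 ≤ |x|) :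
    (2 - β) / ((2 - β) ^ 2 + x ^ 2) ≤ 1 / 8 * ((33 - β) / ((33 - β) ^ 2 + x ^ 2)) := by
  have hx2 : 33 ^ 2 ≤ x ^ 2 := by
    rw [← sq_abs x]
    exact pow_le_pow_left₀ (by norm_num) hx 2
  rw [← mul_div_assoc, div_le_div_iff₀ (by positivity) (by positivity)]
  have h3 : (2 - β) * ((33 - β) ^ 2 + x ^ 2) ≤ 2 * (2 * x ^ 2) := by
    apply mul_le_mul (by linarith) _ (by positivity) (by norm_num)
    nlinarith
  have h4 : 1 / 8 * 32 * x ^ 2 ≤ 1 / 8 * (33 - β) * ((2 - β) ^ 2 + x ^ 2) := by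
    apply mul_le_mul (by linarith) _ (by positivity) (by linarith)
    nlinarith [sq_nonneg (2 - β)]
  linarith

/-- MG: every interval of length `B` contains an ordinate. -/
theorem max_gap : ∃ B T₀ : ℝ, 0 < B ∧ ∀ t : ℝ, T₀ ≤ t → 0 < zc (Ico t (t + B)) := by
  obtain ⟨C₁, hC₁, H₁⟩ := xi_ge21
  obtain ⟨C₂, hC₂, H₂⟩ := Pool.Agent.Helper64.UG.xi_le64
  refine ⟨66, Real.exp (8 * C₁ + C₂ + 2) + 35, by norm_num, fun t ht => ?_⟩
  by_contra hcon
  have hz : zc (Ico t (t + 66)) = 0 := by omega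
  obtain ⟨F, hF, hs⟩ := Pool.Agent.Helper24.UG.zc_fin (I := Ico t (t + 66)) Ico_subset_Icc_self
  rw [hz, Nat.cast_zero] at hs
  have hF0 : ∀ ρ ∈ F, mx ρ = 0 := by
    have := (Finset.sum_eq_zero_iff_of_nonneg (s := F) (f := fun ρ : ZS => mx ρ) (fun ρ _ => mx_nonneg _)).1 hs.symm
    exact this
  set u := t + 33 with hu
  have he := Real.exp_pos (8 * C₁ + C₂ + 2)
  have hu0 : 35 ≤ u := by linarith
  have g1 := Pool.Agent.Helper64.UG.hasSum64 (B := 2) (by norm_num) u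
  have g2 := (Pool.Agent.Helper64.UG.hasSum64 (B := 33) (by norm_num) u).mul_left (1 / 8)
  have g3 := hasSum_le (fun ρ : ZS => by
    have hβ := zs_re ρ
    by_cases hm : mx (ρ : ℂ) = 0
    · rw [hm]; simp
    · have hn : (ρ : ℂ).im ∉ Ico t (t + 66) := fun h => hm (hF0 ρ ((hF ρ).2 h))
      have hx : 33 ≤ |u - (ρ : ℂ).im| := by
        rw [Set.mem_Ico, not_and_or, not_le, not_lt] at hn
        rcases hn with hn | hn
        · rw [abs_of_pos (by linarith)]; linarith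
        · rw [abs_of_nonpos (by linarith)]; linarith
      have := mul_le_mul_of_nonneg_left (term_le21 hβ.1 hβ.2 hx) (mx_nonneg (ρ : ℂ))
      calc _ ≤ _ := this
        _ = _ := by ring) g1 g2
  have g4 := H₁ u (by linarith)
  have g5 := H₂ (((33 : ℝ) : ℂ) + (u : ℂ) * Complex.I) (by simp; norm_num)
  have g6 : ‖((33 : ℝ) : ℂ) + (u : ℂ) * Complex.I‖ + 2 ≤ 2 * u := by
    have h5 := Complex.norm_le_abs_re_add_abs_im (((33 : ℝ) : ℂ) + (u : ℂ) * Complex.I)
    have e1 : (((33 : ℝ) : ℂ) + (u : ℂ) * Complex.I).re = 33 := by simp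
    have e2 : (((33 : ℝ) : ℂ) + (u : ℂ) * Complex.I).im = u := by simp
    rw [e1, e2, abs_of_pos (by linarith : 0 < u), abs_of_pos (by norm_num : (0:ℝ) < 33)] at h5
    linarith
  have g7 : Real.log (‖((33 : ℝ) : ℂ) + (u : ℂ) * Complex.I‖ + 2) ≤ Real.log 2 + Real.log u := by
    rw [← Real.log_mul (by norm_num) (by linarith)]
    exact Real.log_le_log (by positivity) g6
  have g8 := Real.log_two_lt_d9
  have g9 : 8 * C₁ + C₂ + 2 < Real.log u := by
    rw [Real.lt_log_iff_exp_lt (by linarith)]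
    linarith
  linarith

end Pool.Agent.Helper21.UX
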